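import Pool.Agent.Q24.FS.VLO

set_option autoImplicit false

/-!
# Job FS11 of project FS: the abelian theorem
-/

namespace Pool.Agent.Q24.FS

open Filter Topology Set
open Pool.Agent.Q62.FS

/-- the difference quotient of a power at `1` -/
lemma slope_lim (r : ℝ) : Tendsto (fun t : ℝ => (1 - t ^ r) / (1 - t)) (𝓝[<] 1) (𝓝 r) := by
  have h1 : HasDerivAt (fun t : ℝ => t ^ r) (r * 1 ^ (r - 1)) 1 :=
    Real.hasDerivAt_rpow_const (Or.inl one_ne_zero)
  rw [Real.one_rpow, mul_one] at h1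
  have h2 := hasDerivAt_iff_tendsto_slope.1 h1
  have h3 : Tendsto (slope (fun t : ℝ => t ^ r) 1) (𝓝[<] 1) (𝓝 r) :=
    h2.mono_left (nhdsWithin_mono 1 fun t ht => ne_of_lt ht)
  refine h3.congr fun t => ?_
  rw [slope_def_field, Real.one_rpow, ← neg_sub 1 (t ^ r), ← neg_sub 1 t, neg_div_neg_eq]

lemma ratio_lim {r : ℝ} (hr : 0 < r) :
    Tendsto (fun t : ℝ => (1 - t) / (1 - t ^ r)) (𝓝[<] 1) (𝓝 (1 / r)) := by
  have h := (slope_lim r).inv₀ hr.ne'
  rw [← one_div] at h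
  refine h.congr fun t => ?_
  rw [inv_div]

lemma one_lim : Tendsto (fun t : ℝ => t) (𝓝[<] 1) (𝓝 1) := nhdsWithin_le_nhds

lemma pow_one_lim (r : ℝ) : Tendsto (fun t : ℝ => t ^ r) (𝓝[<] 1) (𝓝 1) := by
  have h : Tendsto (fun t : ℝ => t ^ r) (𝓝 1) (𝓝 (1 ^ r)) :=
    (Real.continuousAt_rpow_const 1 r (Or.inl one_ne_zero)).tendsto
  rw [Real.one_rpow] at h
  exact h.mono_left nhdsWithin_le_nhds

lemma ev_Ioo : ∀ᶠ t : ℝ in 𝓝[<] 1, 0 < t ∧ t < 1 := by
  filter_upwards [Ioo_mem_nhdsLT (show (0 : ℝ) < 1 by norm_num)] with t ht using ht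

/-- iteration of an inequality between `x` and `t x` -/
lemma iterate_le {G : ℝ → ℝ} {t x0 : ℝ} (ht0 : 0 < t) (ht1 : t < 1)
    (hG : ∀ x, 0 < x → x ≤ x0 → G x ≤ G (t * x)) (hlim : Tendsto G (𝓝[>] 0) (𝓝 0)) {x : ℝ}
    (hx : 0 < x) (hx0 : x ≤ x0) : G x ≤ 0 := by
  have hit : ∀ n : ℕ, G x ≤ G (t ^ n * x) := by
    intro n
    induction n with
    | zero => rw [pow_zero, one_mul]
    | succ n ih =>
      have h1 : 0 < t ^ n * x := by positivity
      have h2 : t ^ n * x ≤ x0 := by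
        have : t ^ n ≤ 1 := pow_le_one₀ ht0.le ht1.le
        nlinarith
      have h3 := hG _ h1 h2
      rw [pow_succ, mul_comm (t ^ n) t, mul_assoc]
      exact ih.trans h3
  have h1 : Tendsto (fun n : ℕ => t ^ n * x) atTop (𝓝[>] 0) := by
    refine tendsto_nhdsWithin_iff.2 ⟨?_, Eventually.of_forall fun n => by
      change 0 < t ^ n * x
      positivity⟩
    have h2 := (tendsto_pow_atTop_nhds_zero_of_lt_one ht0.le ht1).mul_const x
    rwa [zero_mul] at h2
  exact ge_of_tendsto (hlim.comp h1) (Eventually.of_forall hit)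

/-- **the abelian theorem** -/
theorem abe : S_ABE := by
  intro J S d L hd0 hd1 hL hco hnn hS hJ
  have hr : 0 < 1 - d := by linarith
  -- limits as `t → 1`
  have hu : Tendsto (fun t : ℝ => (1 - t) / (1 - t ^ (1 - d)) * t ^ (-d) * (L + (1 - t))) (𝓝[<] 1)
      (𝓝 (1 / (1 - d) * 1 * (L + (1 - 1)))) :=
    ((ratio_lim hr).mul (pow_one_lim (-d))).mul (tendsto_const_nhds.add (tendsto_const_nhds.sub one_lim))
  have hl : Tendsto (fun t : ℝ => (1 - t) / (1 - t ^ (1 - d)) * (L - (1 - t))) (𝓝[<] 1)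
      (𝓝 (1 / (1 - d) * (L - (1 - 1)))) :=
    (ratio_lim hr).mul (tendsto_const_nhds.sub (tendsto_const_nhds.sub one_lim))
  have eu : 1 / (1 - d) * 1 * (L + (1 - 1)) = L / (1 - d) := by ring
  have el : 1 / (1 - d) * (L - (1 - 1)) = L / (1 - d) := by ring
  rw [eu] at hu
  rw [el] at hl
  have hpow : ∀ {x : ℝ}, 0 < x → x ^ (1 - d) * x ^ (d - 1) = 1 := fun {x} hx => by
    rw [← Real.rpow_add hx]
    simp
  have hpow2 : ∀ {x : ℝ}, 0 < x → x ^ (1 - d) * x ^ d = x := fun {x} hx => by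
    rw [← Real.rpow_add hx]
    simp
  have hPlim := rpow_lim hr
  -- the upper bound for a given `t`
  have upper : ∀ t : ℝ, 0 < t → t < 1 → ∀ᶠ x : ℝ in 𝓝[>] 0,
      S x * x ^ (d - 1) ≤ (1 - t) / (1 - t ^ (1 - d)) * t ^ (-d) * (L + (1 - t)) := by
    intro t ht0 ht1
    have hden : 0 < 1 - t ^ (1 - d) := by
      have := Real.rpow_lt_one ht0.le ht1 hr
      linarith
    have htd : 0 < t ^ (-d) := Real.rpow_pos_of_pos ht0 _
    set a : ℝ := (1 - t) / (1 - t ^ (1 - d)) * t ^ (-d) * (L + (1 - t)) with ha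
    have hJe : ∀ᶠ x : ℝ in 𝓝[>] 0, J x * x ^ d ≤ L + (1 - t) :=
      hJ.eventually (ge_mem_nhds (show L < L + (1 - t) by linarith))
    obtain ⟨x0, hx0, hx⟩ := mem_nhdsGT_iff_exists_Ioc_subset.1 hJe
    have hG : ∀ x, 0 < x → x ≤ x0 → S x - a * x ^ (1 - d) ≤ S (t * x) - a * (t * x) ^ (1 - d) := by
      intro x h1 h2
      have h3 : 0 < t * x := by positivity
      have h4 : t * x ≤ x := by nlinarith
      have h5 : J (t * x) * (t * x) ^ d ≤ L + (1 - t) := hx ⟨h3, h4.trans h2⟩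
      have h6 := (hco (t * x) x h3 h4).2
      have h7 : (x - t * x) * J (t * x) ≤ a * (1 - t ^ (1 - d)) * x ^ (1 - d) := by
        have hQ : 0 < (t * x) ^ d := Real.rpow_pos_of_pos h3 d
        have e1 : x - t * x = (1 - t) * t ^ (-d) * x ^ (1 - d) * (t * x) ^ d := by
          rw [Real.mul_rpow ht0.le h1.le]
          have e2 : t ^ (-d) * t ^ d = 1 := by
            rw [← Real.rpow_add ht0]
            simp
          calc x - t * x = (1 - t) * x := by ring
            _ = (1 - t) * (t ^ (-d) * t ^ d) * (x ^ (1 - d) * x ^ d) := by rw [e2, hpow2 h1, mul_one]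
            _ = _ := by ring
        calc (x - t * x) * J (t * x) = (1 - t) * t ^ (-d) * x ^ (1 - d) * (J (t * x) * (t * x) ^ d) := by
              rw [e1]; ring
          _ ≤ (1 - t) * t ^ (-d) * x ^ (1 - d) * (L + (1 - t)) := by
              have h8 : 0 < x ^ (1 - d) := Real.rpow_pos_of_pos h1 _
              exact mul_le_mul_of_nonneg_left h5 (mul_nonneg (mul_nonneg (by linarith) htd.le) h8.le)
          _ = a * (1 - t ^ (1 - d)) * x ^ (1 - d) := by
              rw [ha]; field_simp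
      rw [Real.mul_rpow ht0.le h1.le]
      linarith
    have hlim : Tendsto (fun x : ℝ => S x - a * x ^ (1 - d)) (𝓝[>] 0) (𝓝 0) := by
      have := hS.sub (hPlim.const_mul a)
      rwa [mul_zero, sub_zero] at this
    filter_upwards [ev_pos', Ioc_mem_nhdsGT hx0] with x h1 h2
    have h3 := iterate_le (G := fun x => S x - a * x ^ (1 - d)) ht0 ht1 hG hlim h1 h2.2
    have h4 : 0 < x ^ (d - 1) := Real.rpow_pos_of_pos h1 _
    calc S x * x ^ (d - 1) ≤ a * x ^ (1 - d) * x ^ (d - 1) :=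
          mul_le_mul_of_nonneg_right (by linarith) h4.le
      _ = a := by rw [mul_assoc, hpow h1, mul_one]
  -- the lower bound for a given `t`
  have lower : ∀ t : ℝ, 0 < t → t < 1 → ∀ᶠ x : ℝ in 𝓝[>] 0,
      (1 - t) / (1 - t ^ (1 - d)) * (L - (1 - t)) ≤ S x * x ^ (d - 1) := by
    intro t ht0 ht1
    have hden : 0 < 1 - t ^ (1 - d) := by
      have := Real.rpow_lt_one ht0.le ht1 hr
      linarith
    set a : ℝ := (1 - t) / (1 - t ^ (1 - d)) * (L - (1 - t)) with ha
    have hJe : ∀ᶠ x : ℝ in 𝓝[>] 0, L - (1 - t) ≤ J x * x ^ d :=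
      hJ.eventually (le_mem_nhds (show L - (1 - t) < L by linarith))
    obtain ⟨x0, hx0, hx⟩ := mem_nhdsGT_iff_exists_Ioc_subset.1 hJe
    have hG : ∀ x, 0 < x → x ≤ x0 → a * x ^ (1 - d) - S x ≤ a * (t * x) ^ (1 - d) - S (t * x) := by
      intro x h1 h2
      have h3 : 0 < t * x := by positivity
      have h4 : t * x ≤ x := by nlinarith
      have h5 : L - (1 - t) ≤ J x * x ^ d := hx ⟨h1, h2⟩
      have h6 := (hco (t * x) x h3 h4).1
      have h7 : a * (1 - t ^ (1 - d)) * x ^ (1 - d) ≤ (x - t * x) * J x := by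
        have h8 : 0 < x ^ (1 - d) := Real.rpow_pos_of_pos h1 _
        calc a * (1 - t ^ (1 - d)) * x ^ (1 - d) = (1 - t) * x ^ (1 - d) * (L - (1 - t)) := by
              rw [ha]; field_simp
          _ ≤ (1 - t) * x ^ (1 - d) * (J x * x ^ d) :=
              mul_le_mul_of_nonneg_left h5 (mul_nonneg (by linarith) h8.le)
          _ = (1 - t) * (x ^ (1 - d) * x ^ d) * J x := by ring
          _ = (x - t * x) * J x := by rw [hpow2 h1]; ring
      rw [Real.mul_rpow ht0.le h1.le]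
      linarith
    have hlim : Tendsto (fun x : ℝ => a * x ^ (1 - d) - S x) (𝓝[>] 0) (𝓝 0) := by
      have := (hPlim.const_mul a).sub hS
      rwa [mul_zero, sub_zero] at this
    filter_upwards [ev_pos', Ioc_mem_nhdsGT hx0] with x h1 h2
    have h3 := iterate_le (G := fun x => a * x ^ (1 - d) - S x) ht0 ht1 hG hlim h1 h2.2
    have h4 : 0 < x ^ (d - 1) := Real.rpow_pos_of_pos h1 _
    calc a = a * x ^ (1 - d) * x ^ (d - 1) := by rw [mul_assoc, hpow h1, mul_one]
      _ ≤ S x * x ^ (d - 1) := mul_le_mul_of_nonneg_right (by linarith) h4.le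
  rw [tendsto_order]
  constructor
  · intro b hb
    obtain ⟨t, h1, h2, h3⟩ := ((hl.eventually (lt_mem_nhds hb)).and ev_Ioo).exists
    filter_upwards [lower t h2 h3] with x hx using lt_of_lt_of_le h1 hx
  · intro b hb
    obtain ⟨t, h1, h2, h3⟩ := ((hu.eventually (gt_mem_nhds hb)).and ev_Ioo).exists
    filter_upwards [upper t h2 h3] with x hx using lt_of_le_of_lt hx h1

end Pool.Agent.Q24.FS
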