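import Pool.Agent.Q62.FS.Stm

set_option autoImplicit false

/-!
# Job FS5 of project FS: greedy packing
-/

namespace Pool.Agent.Q24.FS

open Filter Topology Set
open Pool.Agent.Q62.FS

lemma summable_if {l : ℕ → ℝ} (hl : Hyp l) (p : ℕ → Prop) [DecidablePred p] :
    Summable fun j => if p j then l j else 0 := by
  refine Summable.of_nonneg_of_le (fun j => ?_) (fun j => ?_) hl.sum
  · split_ifs
    · exact (hl.pos j).le
    · exact le_rfl
  · split_ifs
    · exact le_rfl
    · exact (hl.pos j).le

section greedy

variable {B : ℕ} [Nonempty (Fin B)]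

/-- an index with the largest residual -/
noncomputable def am (r : Fin B → ℝ) : Fin B := Classical.choose (Finite.exists_max r)

lemma am_spec (r : Fin B → ℝ) (i : Fin B) : r i ≤ r (am r) := Classical.choose_spec (Finite.exists_max r) i

open Classical in
/-- the choice at one step -/
noncomputable def ch (l : ℕ → ℝ) (x : ℝ) (r : Fin B → ℝ) (j : ℕ) : Option (Fin B) :=
  if l j < x ∧ l j ≤ r (am r) then some (am r) else none

/-- the residuals -/
noncomputable def st (l : ℕ → ℝ) (x : ℝ) : ℕ → Fin B → ℝ
  | 0 => fun _ => x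
  | n + 1 => fun i => st l x n i - if ch l x (st l x n) n = some i then l n else 0

lemma ch_some {l : ℕ → ℝ} {x : ℝ} {r : Fin B → ℝ} {j : ℕ} {i : Fin B} (h : ch l x r j = some i) :
    l j < x ∧ l j ≤ r i := by
  unfold ch at h
  split_ifs at h with h1
  have h2 : am r = i := Option.some.inj h
  rw [← h2]
  exact h1

lemma ch_none {l : ℕ → ℝ} {x : ℝ} {r : Fin B → ℝ} {j : ℕ} (h : ch l x r j = none) (hj : l j < x)
    (i : Fin B) : r i < l j := by
  unfold ch at h
  split_ifs at h with h1
  push Not at h1
  exact lt_of_le_of_lt (am_spec r i) (h1 hj)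

lemma st_nonneg {l : ℕ → ℝ} {x : ℝ} (hx : 0 ≤ x) (n : ℕ) (i : Fin B) :
    0 ≤ st l x n i := by
  induction n with
  | zero => exact hx
  | succ n ih =>
    change 0 ≤ st l x n i - if ch l x (st l x n) n = some i then l n else 0
    split_ifs with h
    · have := (ch_some h).2
      linarith
    · linarith

lemma st_sum {l : ℕ → ℝ} {x : ℝ} (n : ℕ) (i : Fin B) :
    ∑ j ∈ Finset.range n, (if ch l x (st l x j) j = some i then l j else 0) = x - st l x n i := by
  induction n with
  | zero =>
    rw [Finset.sum_range_zero]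
    change 0 = x - x
    ring
  | succ n ih =>
    rw [Finset.sum_range_succ, ih]
    change _ = x - (st l x n i - if ch l x (st l x n) n = some i then l n else 0)
    ring

/-- the sum of the residuals -/
noncomputable def tot (B : ℕ) [Nonempty (Fin B)] (l : ℕ → ℝ) (x : ℝ) (n : ℕ) : ℝ :=
  ∑ i : Fin B, st l x n i

lemma tot_succ {l : ℕ → ℝ} {x : ℝ} (n : ℕ) : tot B l x (n + 1) =
    tot B l x n - if ch l x (st (B := B) l x n) n = none then 0 else l n := by
  unfold tot
  change ∑ i : Fin B, (st l x n i - if ch l x (st (B := B) l x n) n = some i then l n else 0) = _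
  rw [Finset.sum_sub_distrib]
  congr 1
  rcases h : ch l x (st (B := B) l x n) n with _ | i
  · simp
  · simp

lemma tot_nonneg {l : ℕ → ℝ} {x : ℝ} (hx : 0 ≤ x) (n : ℕ) : 0 ≤ tot B l x n :=
  Finset.sum_nonneg fun i _ => st_nonneg hx n i

lemma st_le_tot {l : ℕ → ℝ} {x : ℝ} (hx : 0 ≤ x) (n : ℕ) (i : Fin B) : st l x n i ≤ tot B l x n :=
  Finset.single_le_sum (f := fun i => st l x n i) (fun i _ => st_nonneg hx n i) (Finset.mem_univ i)

lemma tot_lt {l : ℕ → ℝ} {x : ℝ} {n : ℕ} (h : ch l x (st (B := B) l x n) n = none) (hn : l n < x) :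
    tot B l x n < B * l n := by
  unfold tot
  calc ∑ i : Fin B, st l x n i < ∑ _i : Fin B, l n :=
        Finset.sum_lt_sum_of_nonempty Finset.univ_nonempty fun i _ => ch_none h hn i
    _ = B * l n := by rw [Finset.sum_const, Finset.card_univ, Fintype.card_fin, nsmul_eq_mul]

/-- the residuals after the last skipped index -/
lemma tot_after {l : ℕ → ℝ} {x : ℝ} (hl : Hyp l) {n0 : ℕ}
    (h : ∀ n, n0 ≤ n → l n < x → ch l x (st (B := B) l x n) n ≠ none) (n : ℕ) (hn : n0 ≤ n) :
    ∑ j ∈ Finset.Ico n0 n, (if l j < x then l j else 0) ≤ tot B l x n0 - tot B l x n := by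
  induction n, hn using Nat.le_induction with
  | base => simp
  | succ n hn ih =>
    rw [Finset.sum_Ico_succ_top hn, tot_succ]
    split_ifs with h1 h2 h3
    · exact absurd h2 (h n hn h1)
    · linarith
    · linarith
    · have := hl.pos n
      linarith

end greedy

/-- **greedy packing** -/
theorem gre : S_GRE := by
  intro _ l hl x B hx hBV hBj
  rcases Nat.eq_zero_or_pos B with rfl | hB
  · exact ⟨fun _ => none, fun _ _ => rfl, fun i => i.elim0⟩
  haveI : Nonempty (Fin B) := ⟨⟨0, hB⟩⟩
  have hBr : (0 : ℝ) < B := by exact_mod_cast hB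
  have hlim : Tendsto l atTop (𝓝 0) := hl.sum.tendsto_atTop_zero
  -- the residuals tend to zero
  have key : ∀ ε : ℝ, 0 < ε → ∃ n, tot B l x n < ε := by
    intro ε hε
    by_contra hcon
    push Not at hcon
    -- eventually nothing is skipped
    have hfin : ∃ n0 : ℕ, ∀ n, n0 ≤ n → l n < x → ch l x (st (B := B) l x n) n ≠ none := by
      have h1 : ∀ᶠ n in atTop, l n < ε / B := hlim.eventually (gt_mem_nhds (by positivity))
      obtain ⟨n0, hn0⟩ := eventually_atTop.1 h1
      refine ⟨n0, fun n hn hnx hc => ?_⟩
      have h2 := tot_lt hc hnx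
      have h3 := hcon n
      have h4 := hn0 n hn
      rw [lt_div_iff₀ hBr] at h4
      linarith
    classical
    obtain ⟨n0, hn0, hmin⟩ : ∃ n0 : ℕ, (∀ n, n0 ≤ n → l n < x → ch l x (st (B := B) l x n) n ≠ none) ∧
        ∀ m, m < n0 → ¬ ∀ n, m ≤ n → l n < x → ch l x (st (B := B) l x n) n ≠ none :=
      ⟨Nat.find hfin, Nat.find_spec hfin, fun m hm => Nat.find_min hfin hm⟩
    rcases Nat.eq_zero_or_pos n0 with h0 | h0
    · -- nothing is skipped
      rw [h0] at hn0
      have h1 : V l x ≤ B * x - ε := by
        unfold V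
        refine Real.tsum_le_of_sum_range_le (fun j => ?_) fun n => ?_
        · split_ifs
          · exact (hl.pos j).le
          · exact le_rfl
        · have h2 := tot_after hl hn0 n (Nat.zero_le n)
          rw [← Finset.range_eq_Ico] at h2
          have h3 : tot B l x 0 = B * x := by
            unfold tot
            change ∑ _i : Fin B, x = _
            rw [Finset.sum_const, Finset.card_univ, Fintype.card_fin, nsmul_eq_mul]
          rw [h3] at h2
          have := hcon n
          linarith
      linarith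
    · -- the last skipped index
      obtain ⟨j, rfl⟩ : ∃ j, n0 = j + 1 := ⟨n0 - 1, by omega⟩
      have h1 := hmin j (Nat.lt_succ_self j)
      push Not at h1
      obtain ⟨n, hn, hnx, hnn⟩ := h1
      have hnj : n = j := by
        by_contra hne
        exact hn0 n (by omega) hnx hnn
      rw [hnj] at hnx hnn
      have h2 := tot_lt hnn hnx
      have h3 : V l (l j) ≤ tot B l x j - ε := by
        unfold V
        refine Real.tsum_le_of_sum_range_le (fun i => ?_) fun n => ?_
        · split_ifs
          · exact (hl.pos i).le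
          · exact le_rfl
        · have h4 : ∑ i ∈ Finset.range n, (if l i < l j then l i else 0) ≤
              ∑ i ∈ Finset.Ico (j + 1) (max (j + 1) n), (if l i < x then l i else 0) := by
            rw [← Finset.sum_filter, ← Finset.sum_filter]
            refine Finset.sum_le_sum_of_subset_of_nonneg ?_ fun i _ _ => (hl.pos i).le
            intro i hi
            obtain ⟨h5, h6⟩ := Finset.mem_filter.1 hi
            rw [Finset.mem_range] at h5
            have h7 : j < i := by
              by_contra h8
              exact absurd (hl.anti (not_lt.1 h8)) (not_le.2 h6)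
            refine Finset.mem_filter.2 ⟨Finset.mem_Ico.2 ⟨h7, ?_⟩, h6.trans hnx⟩
            exact lt_of_lt_of_le h5 (le_max_right _ _)
          have h5 := tot_after hl hn0 (max (j + 1) n) (le_max_left _ _)
          have h6 := hcon (max (j + 1) n)
          have h7 : tot B l x (j + 1) = tot B l x j := by
            rw [tot_succ, if_pos hnn, sub_zero]
          rw [h7] at h5
          linarith
      have h4 := hBj j hnx
      linarith
  refine ⟨fun j => ch l x (st (B := B) l x j) j, fun j hj => ?_, fun i => ?_⟩
  · by_contra h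
    obtain ⟨i, hi⟩ := Option.ne_none_iff_exists'.1 h
    exact absurd (ch_some hi).1 (not_lt.2 hj)
  · refine le_of_forall_pos_le_add fun ε hε => ?_
    obtain ⟨n, hn⟩ := key ε hε
    have h1 := st_sum (B := B) (l := l) (x := x) n i
    have h2 := st_le_tot (B := B) (l := l) hx.le n i
    have h3 : ∑ j ∈ Finset.range n, (if ch l x (st (B := B) l x j) j = some i then l j else 0) ≤
        ∑' j, if ch l x (st (B := B) l x j) j = some i then l j else 0 := by
      refine (summable_if hl _).sum_le_tsum _ fun j _ => ?_
      split_ifs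
      · exact (hl.pos j).le
      · exact le_rfl
    linarith

/-- **lower bound for the number of classes** -/
theorem low : S_LOW := by
  rintro hbas l hl x B hx hpos ⟨h, hh1, hh2⟩
  obtain ⟨hb1, -, -, -⟩ := hbas l hl
  have hJ := hb1 x hx
  classical
  set n0 : ℕ := J l x with hn0
  let g : ℕ → Fin (n0 + B) := fun j =>
    if hj : j < n0 then Fin.castAdd B ⟨j, hj⟩ else
      match h j with
      | some i => Fin.natAdd n0 i
      | none => ⟨0, hpos⟩
  refine ⟨g, fun i => ?_⟩
  refine Fin.addCases (fun a => ?_) (fun b => ?_) i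
  · have hg : g a = Fin.castAdd B a := by
      change (if hj : (a : ℕ) < n0 then Fin.castAdd B ⟨a, hj⟩ else _) = _
      rw [dif_pos a.2]
    have h1 : x ≤ l a := (hJ a).2 a.2
    have h2 := (summable_if hl (fun j => g j = Fin.castAdd B a)).le_tsum (a : ℕ) fun j _ => by
      split_ifs
      · exact (hl.pos j).le
      · exact le_rfl
    rw [if_pos hg] at h2
    exact h1.trans h2
  · refine (hh2 b).trans ?_
    refine Summable.tsum_le_tsum (fun j => ?_) (summable_if hl _) (summable_if hl _)
    by_cases hjb : h j = some b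
    · have hj : ¬ j < n0 := fun hj => by
        have := hh1 j ((hJ j).2 hj)
        rw [this] at hjb
        exact absurd hjb (by simp)
      have hg : g j = Fin.natAdd n0 b := by
        change (if hj : j < n0 then Fin.castAdd B ⟨j, hj⟩ else
          match h j with
          | some i => Fin.natAdd n0 i
          | none => ⟨0, hpos⟩) = _
        rw [dif_neg hj, hjb]
      rw [if_pos hjb, if_pos hg]
    · rw [if_neg hjb]
      split_ifs
      · exact (hl.pos j).le
      · exact le_rfl

/-- **properties of `N`** -/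
theorem nnn : S_NNN := by
  intro hbas hupp hgre hlow l hl
  obtain ⟨hb1, hb2, hb3, hb4⟩ := hbas l hl
  have hbdd : ∀ x : ℝ, 0 < x → BddAbove {n : ℕ | Splits l x n} := by
    intro x hx
    refine ⟨⌊S l x / x⌋₊, fun n hn => ?_⟩
    have h1 := hupp l hl x n hx hn
    apply Nat.le_floor
    rw [le_div_iff₀ hx]
    exact h1
  refine ⟨fun x hx hxs => ?_, fun x hx => ?_, fun x c hx hc hV => ?_⟩
  · have hne : {n : ℕ | Splits l x n}.Nonempty := by
      refine ⟨1, fun _ => 0, fun i => ?_⟩
      have : ∀ j : ℕ, (if (0 : Fin 1) = i then l j else 0) = l j := fun j =>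
        if_pos (Subsingleton.elim _ _)
      simp only [this]
      exact hxs
    exact ⟨Nat.sSup_mem hne (hbdd x hx), fun n hn => le_csSup (hbdd x hx) hn⟩
  · rcases Set.eq_empty_or_nonempty {n : ℕ | Splits l x n} with he | hne
    · have h0 : N l x = 0 := by
        unfold N
        rw [he]
        exact csSup_empty
      rw [h0, Nat.cast_zero, zero_mul, hb2 x hx]
      have := hb3 x
      positivity
    · exact hupp l hl x (N l x) hx (Nat.sSup_mem hne (hbdd x hx))
  · have hfl : (⌊c⌋₊ : ℝ) ≤ c := Nat.floor_le hc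
    have hlt : c < ⌊c⌋₊ + 1 := Nat.lt_floor_add_one c
    rcases Nat.eq_zero_or_pos (J l x + ⌊c⌋₊) with h0 | hpos
    · have h1 : J l x = 0 := by omega
      have h2 : ⌊c⌋₊ = 0 := by omega
      rw [h2, Nat.cast_zero] at hlt
      rw [h1, Nat.cast_zero]
      have : (0 : ℝ) ≤ (N l x : ℝ) := Nat.cast_nonneg _
      linarith
    · have h1 := hgre hbas l hl x ⌊c⌋₊ hx
        ((mul_le_mul_of_nonneg_right hfl hx.le).trans (hV x hx le_rfl))
        (fun j hj => (mul_le_mul_of_nonneg_right hfl (hl.pos j).le).trans (hV (l j) (hl.pos j) hj.le))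
      have h2 := hlow hbas l hl x ⌊c⌋₊ hx hpos h1
      have h3 : J l x + ⌊c⌋₊ ≤ N l x := le_csSup (hbdd x hx) h2
      have h4 : (J l x : ℝ) + ⌊c⌋₊ ≤ (N l x : ℝ) := by exact_mod_cast h3
      linarith

end Pool.Agent.Q24.FS
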