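import Pool.Agent.Q24.FS.VLO

set_option autoImplicit false

/-!
# Job FS14 of project FS: the points `a ≤ x ≤ b`
-/

namespace Pool.Agent.Q24.FS

open Filter Topology Set
open Pool.Agent.Q62.FS

lemma ev_small {c : ℝ} (hc : 0 < c) : ∀ᶠ x : ℝ in 𝓝[>] 0, x ≤ c := by
  filter_upwards [Ioc_mem_nhdsGT hc] with x h using h.2

/-- **the points `a ≤ x ≤ b`** -/
theorem pts : S_PTS := by
  rintro J S V N d C A hd0 hd1 hC hN ⟨v, x0, hv, hx0, hV⟩ e x1 he hx1
  -- the constant `K`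
  obtain ⟨K, hK1, hK⟩ : ∃ K : ℝ, 1 ≤ K ∧ 4 * C ≤ K ^ d * v := by
    refine ⟨max 1 ((4 * C / v) ^ (1 / d)), le_max_left _ _, ?_⟩
    have h0 : 0 ≤ 4 * C / v := by positivity
    have h1 : ((4 * C / v) ^ (1 / d)) ^ d ≤ (max 1 ((4 * C / v) ^ (1 / d))) ^ d :=
      Real.rpow_le_rpow (by positivity) (le_max_right _ _) hd0.le
    rw [← Real.rpow_mul h0, one_div, inv_mul_cancel₀ hd0.ne', Real.rpow_one, div_le_iff₀ hv,
      ← one_div] at h1
    exact h1
  have hK0 : 0 < K := by linarith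
  have hNe : ∀ᶠ y : ℝ in 𝓝[>] 0, N y * y ^ d ≤ 2 * C :=
    hN.eventually (ge_mem_nhds (show C < 2 * C by linarith))
  obtain ⟨y0, hy0, hy⟩ := mem_nhdsGT_iff_exists_Ioc_subset.1 hNe
  have hpd : ∀ᶠ x : ℝ in 𝓝[>] 0, x ^ d < v / 2 :=
    (rpow_lim hd0).eventually (gt_mem_nhds (by positivity))
  filter_upwards [ev_pos', ev_small hx0, ev_small (show 0 < y0 / K by exact div_pos hy0 hK0),
    ev_small (show 0 < x1 / ((1 + e) * K) by positivity), hpd] with x hx hxx0 hxy0 hxx1 hxd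
  have hKx : K * x ≤ y0 := by
    rw [le_div_iff₀ hK0] at hxy0
    linarith
  have hKx1 : (1 + e) * (K * x) ≤ x1 := by
    rw [le_div_iff₀ (by positivity)] at hxx1
    linarith
  have hxd0 : 0 < x ^ d := Real.rpow_pos_of_pos hx d
  -- the infimum
  set R : Set ℝ := (fun y => V y / y) '' Ioc 0 x with hR
  have hRne : R.Nonempty := ⟨V x / x, x, ⟨hx, le_rfl⟩, rfl⟩
  have hRlow : ∀ r ∈ R, v / x ^ d ≤ r := by
    rintro _ ⟨y, ⟨hy1, hy2⟩, rfl⟩
    simp only
    rw [div_le_div_iff₀ hxd0 hy1]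
    have h1 := hV y hy1 (hy2.trans hxx0)
    have h2 : y ^ d ≤ x ^ d := Real.rpow_le_rpow hy1.le hy2 hd0.le
    have h3 : y ^ (1 - d) * y ^ d = y := by
      rw [← Real.rpow_add hy1]
      simp
    have h4 : 0 < y ^ (1 - d) := Real.rpow_pos_of_pos hy1 _
    calc v * y = v * y ^ (1 - d) * y ^ d := by rw [mul_assoc, h3]
      _ ≤ v * y ^ (1 - d) * x ^ d := mul_le_mul_of_nonneg_left h2 (by positivity)
      _ ≤ V y * x ^ d := mul_le_mul_of_nonneg_right h1 hxd0.le
  have hRb : BddBelow R := ⟨_, hRlow⟩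
  set m : ℝ := sInf R with hm
  have hmv : v / x ^ d ≤ m := le_csInf hRne hRlow
  have hm0 : 0 < m := lt_of_lt_of_le (by positivity) hmv
  have hmv' : v ≤ m * x ^ d := by rwa [div_le_iff₀ hxd0] at hmv
  have hmV : ∀ y, 0 < y → y ≤ x → m * y ≤ V y := by
    intro y h1 h2
    have h3 : m ≤ V y / y := csInf_le hRb ⟨y, ⟨h1, h2⟩, rfl⟩
    rwa [le_div_iff₀ h1] at h3
  -- the point `a`
  obtain ⟨_, ⟨a, ⟨ha0, hax⟩, rfl⟩, hav⟩ := exists_lt_of_csInf_lt hRne
    (show sInf R < (1 + e) * m by rw [← hm]; nlinarith)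
  simp only at hav
  have haV : V a ≤ (1 + e) * m * a := by
    rw [div_lt_iff₀ ha0] at hav
    exact hav.le
  -- the set `E`
  set E : Set ℝ := {y | x ≤ y ∧ V y ≤ m * y} with hE
  obtain ⟨y1, hy1E, hy1K⟩ : ∃ y ∈ E, y ≤ K * x := by
    by_contra hcon
    push Not at hcon
    have h1 : ∀ y, 0 < y → y ≤ K * x → m * y ≤ V y := by
      intro y h2 h3
      rcases le_total y x with h4 | h4
      · exact hmV y h2 h4
      · by_contra h5
        exact absurd h3 (not_le.2 (hcon y ⟨h4, (not_le.1 h5).le⟩))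
    have hKxp : 0 < K * x := by positivity
    have h2 := A.lo (K * x) m hKxp hm0.le h1
    have h3 := A.j0 (K * x) hKxp
    have h4 : N (K * x) * (K * x) ^ d ≤ 2 * C := hy ⟨hKxp, hKx⟩
    have hKd : 0 < K ^ d := Real.rpow_pos_of_pos hK0 d
    rw [Real.mul_rpow hK0.le hx.le] at h4
    have h5 : (m - 1) * (K ^ d * x ^ d) ≤ N (K * x) * (K ^ d * x ^ d) :=
      mul_le_mul_of_nonneg_right (by linarith) (by positivity)
    have h6 : K ^ d * (v - x ^ d) ≤ (m - 1) * (K ^ d * x ^ d) := by nlinarith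
    have h7 : K ^ d * (v / 2) < K ^ d * (v - x ^ d) := mul_lt_mul_of_pos_left (by linarith) hKd
    linarith
  have hEb : BddBelow E := ⟨x, fun y hy => hy.1⟩
  have hEne : E.Nonempty := ⟨y1, hy1E⟩
  set b' : ℝ := sInf E with hb'
  have hb'x : x ≤ b' := le_csInf hEne fun y hy => hy.1
  have hb'K : b' ≤ K * x := (csInf_le hEb hy1E).trans hy1K
  have hb'0 : 0 < b' := by linarith
  have hbelow : ∀ y, 0 < y → y < b' → m * y ≤ V y := by
    intro y h1 h2
    rcases le_total y x with h3 | h3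
    · exact hmV y h1 h3
    · by_contra h4
      exact absurd (csInf_le hEb (show y ∈ E from ⟨h3, (not_le.1 h4).le⟩)) (not_le.2 h2)
  obtain ⟨b, ⟨hxb, hVb⟩, hbb⟩ := exists_lt_of_csInf_lt hEne
    (show sInf E < (1 + e) * b' by rw [← hb']; nlinarith)
  refine ⟨a, b, m, ha0, hax, hxb, ?_, hm0, hmV, haV, hVb, fun y h1 h2 => ?_⟩
  · have : (1 + e) * b' ≤ (1 + e) * (K * x) := mul_le_mul_of_nonneg_left hb'K (by linarith)
    linarith
  · have hme : m / (1 + e) * y ≤ m * y := by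
      refine mul_le_mul_of_nonneg_right ?_ h1.le
      exact div_le_self hm0.le (by linarith)
    rcases lt_or_ge y b' with h3 | h3
    · exact hme.trans (hbelow y h1 h3)
    · by_contra h4
      rw [not_le] at h4
      have h5 : m / (1 + e) * y < m * b' := by
        have h6 : y < (1 + e) * b' := lt_of_le_of_lt h2 hbb
        rw [div_mul_eq_mul_div, div_lt_iff₀ (by linarith)]
        calc m * y < m * ((1 + e) * b') := mul_lt_mul_of_pos_left h6 hm0
          _ = m * b' * (1 + e) := by ring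
      have h6 : max (V y / m) 0 < b' := by
        refine max_lt ?_ hb'0
        rw [div_lt_iff₀ hm0]
        linarith
      obtain ⟨z, hz1, hz2⟩ := exists_between h6
      have hz0 : 0 < z := lt_of_le_of_lt (le_max_right _ _) hz1
      have hz3 : V y / m < z := lt_of_le_of_lt (le_max_left _ _) hz1
      rw [div_lt_iff₀ hm0] at hz3
      have h7 := hbelow z hz0 hz2
      have h8 := A.vm z y hz0 (hz2.le.trans h3)
      linarith

end Pool.Agent.Q24.FS
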