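import Pool.Agent.Q24.FS.ABE
import Pool.Agent.Q24.FS.PTS

set_option autoImplicit false

/-!
# Job FS16 of project FS: the main step
-/

namespace Pool.Agent.Q24.FS

open Filter Topology Set
open Pool.Agent.Q62.FS

/-- the choice of the parameters -/
lemma choose_te {d r : ℝ} (hd0 : 0 < d) (hd1 : d < 1) (hr : 1 < r) :
    ∃ t e : ℝ, 0 < t ∧ t < 1 ∧ 0 < e ∧ e < 1 / 2 ∧ (1 + e) / (1 - e) ≤ r ∧
      (1 + e) ^ 2 * ((1 + e) / (1 - e) - (1 - e) * t ^ d) <
        r * (t * ((1 - e) * t ^ (-d) - (1 + e) / (1 - e))) := by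
  obtain ⟨t, h1, ht0, ht1⟩ := (((pow_one_lim (d - 1)).eventually (gt_mem_nhds hr)).and ev_Ioo).exists
  have htd : 0 < t ^ d := Real.rpow_pos_of_pos ht0 d
  have htd1 : t ^ d < 1 := Real.rpow_lt_one ht0.le ht1 hd0
  have h2 : 1 < r * t ^ (1 - d) := by
    have h3 : t ^ (d - 1) * t ^ (1 - d) = 1 := by
      rw [← Real.rpow_add ht0]
      simp
    have h4 : 0 < t ^ (1 - d) := Real.rpow_pos_of_pos ht0 _
    nlinarith
  have hg : Tendsto (fun e : ℝ => (1 + e) / (1 - e)) (𝓝[>] 0) (𝓝 1) := by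
    have h3 : Tendsto (fun e : ℝ => (1 + e) / (1 - e)) (𝓝 0) (𝓝 ((1 + 0) / (1 - 0))) :=
      (tendsto_const_nhds.add tendsto_id).div (tendsto_const_nhds.sub tendsto_id) (by norm_num)
    rw [add_zero, sub_zero, div_one] at h3
    exact h3.mono_left nhdsWithin_le_nhds
  have hid : Tendsto (fun e : ℝ => e) (𝓝[>] 0) (𝓝 0) := nhdsWithin_le_nhds
  have hL : Tendsto (fun e : ℝ => (1 + e) ^ 2 * ((1 + e) / (1 - e) - (1 - e) * t ^ d)) (𝓝[>] 0)
      (𝓝 ((1 + 0) ^ 2 * (1 - (1 - 0) * t ^ d))) :=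
    ((tendsto_const_nhds.add hid).pow 2).mul (hg.sub ((tendsto_const_nhds.sub hid).mul_const _))
  have hR : Tendsto (fun e : ℝ => r * (t * ((1 - e) * t ^ (-d) - (1 + e) / (1 - e)))) (𝓝[>] 0)
      (𝓝 (r * (t * ((1 - 0) * t ^ (-d) - 1)))) :=
    (((((tendsto_const_nhds.sub hid).mul_const _).sub hg).const_mul t).const_mul r)
  have hlt : (1 + 0) ^ 2 * (1 - (1 - 0) * t ^ d) < r * (t * ((1 - 0) * t ^ (-d) - 1)) := by
    have h3 : t * t ^ (-d) = t ^ (1 - d) := by
      nth_rewrite 1 [← Real.rpow_one t]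
      rw [← Real.rpow_add ht0]
      rfl
    have h4 : t = t ^ (1 - d) * t ^ d := by
      rw [← Real.rpow_add ht0]
      simp
    have h5 : r * (t * ((1 - 0) * t ^ (-d) - 1)) = r * t ^ (1 - d) * (1 - t ^ d) := by
      calc r * (t * ((1 - 0) * t ^ (-d) - 1)) = r * (t * t ^ (-d) - t) := by ring
        _ = r * (t ^ (1 - d) - t ^ (1 - d) * t ^ d) := by rw [h3, ← h4]
        _ = _ := by ring
    rw [h5]
    have h6 : 0 < 1 - t ^ d := by linarith
    nlinarith
  have hev : ∀ᶠ e : ℝ in 𝓝[>] 0, (1 + e) ^ 2 * ((1 + e) / (1 - e) - (1 - e) * t ^ d) <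
      r * (t * ((1 - e) * t ^ (-d) - (1 + e) / (1 - e))) := hL.eventually_lt hR hlt
  obtain ⟨e, h3, h4, h5, h6⟩ := (hev.and ((hg.eventually (ge_mem_nhds hr)).and (ev_pos'.and
    (ev_small (show (0 : ℝ) < 1 / 4 by norm_num))))).exists
  exact ⟨t, e, ht0, ht1, h5, by linarith, h4, h3⟩

/-- the upper bound for a given `r` -/
lemma upper_r (hvlo : S_VLO) (hpts : S_PTS) (hder : S_DER) {J S V N : ℝ → ℝ} {d C : ℝ}
    (A : Abs J S V N) (hd0 : 0 < d) (hd1 : d < 1) (hC : 0 < C)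
    (hN : Tendsto (fun x : ℝ => N x * x ^ d) (𝓝[>] 0) (𝓝 C)) {r : ℝ} (hr : 1 < r) :
    ∀ᶠ x : ℝ in 𝓝[>] 0, S x * x ^ (d - 1) ≤ C * r ^ (1 / d) := by
  obtain ⟨t, e, ht0, ht1, he0, he1, hge, hPQ⟩ := choose_te hd0 hd1 hr
  have h1e : 0 < 1 - e := by linarith
  have hr0 : 0 < r := by linarith
  -- bounds for `N`
  have hN1 : ∀ᶠ y : ℝ in 𝓝[>] 0, C * (1 - e) ≤ N y * y ^ d :=
    hN.eventually (le_mem_nhds (by nlinarith))
  have hN2 : ∀ᶠ y : ℝ in 𝓝[>] 0, (N y + 1) * y ^ d ≤ C * (1 + e) := by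
    have h := hN.add (rpow_lim hd0)
    rw [add_zero] at h
    filter_upwards [h.eventually (ge_mem_nhds (show C < C * (1 + e) by nlinarith))] with y hy
    linarith
  obtain ⟨y0, hy0, hy⟩ := mem_nhdsGT_iff_exists_Ioc_subset.1 (hN1.and hN2)
  filter_upwards [hpts J S V N d C A hd0 hd1 hC hN (hvlo J S V N d C A hd0 hd1 hC hN) e (t * y0) he0
    (by exact mul_pos ht0 hy0), ev_pos'] with x hx hx0
  obtain ⟨a, b, m, ha0, hax, hxb, hbx1, hm0, hmV, haV, hVb, hmb⟩ := hx
  have hb0 : 0 < b := by linarith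
  have hab : a ≤ b := by linarith
  have hby0 : b ≤ y0 := hbx1.trans (by have : (0 : ℝ) < y0 := hy0; nlinarith)
  have hbt : b / t ≤ y0 := by
    rw [div_le_iff₀ ht0]
    linarith
  have htap : 0 < t * a := by positivity
  have hbtp : 0 < b / t := by positivity
  have hpw : ∀ {y : ℝ}, 0 < y → y ^ (d - 1) * y = y ^ d := fun {y} hy => by
    nth_rewrite 2 [← Real.rpow_one y]
    rw [← Real.rpow_add hy]
    congr 1
    ring
  have hA1 : 0 < a ^ (d - 1) := Real.rpow_pos_of_pos ha0 _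
  have hB1 : 0 < b ^ (d - 1) := Real.rpow_pos_of_pos hb0 _
  have hAd : 0 < a ^ d := Real.rpow_pos_of_pos ha0 _
  have hBd : 0 < b ^ d := Real.rpow_pos_of_pos hb0 _
  have htd : 0 < t ^ d := Real.rpow_pos_of_pos ht0 _
  have eA := hpw ha0
  have eB := hpw hb0
  -- the values at `a`
  have hNa : (N a + 1) * a ^ d ≤ C * (1 + e) := (hy ⟨ha0, hab.trans hby0⟩).2
  have hNb : (N b + 1) * b ^ d ≤ C * (1 + e) := (hy ⟨hb0, hby0⟩).2
  have hNta : C * (1 - e) ≤ N (t * a) * (t * a) ^ d :=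
    (hy ⟨htap, le_trans (by nlinarith) (hab.trans hby0)⟩).1
  have hNbt : C * (1 - e) ≤ N (b / t) * (b / t) ^ d := (hy ⟨hbtp, hbt⟩).1
  have sva := A.sv a ha0
  have svb := A.sv b hb0
  have hJa := A.j0 a ha0
  have hJb := A.j0 b hb0
  have loa := A.lo a m ha0 hm0.le fun y h1 h2 => hmV y h1 (h2.trans hax)
  have lob := A.lo b (m / (1 + e)) hb0 (by positivity) hmb
  have hSa : (1 - e) * S a ≤ a * (N a + 1) := by
    have h1 : m * a ≤ V a := hmV a ha0 hax
    have h2 : V a ≤ S a := by rw [sva]; nlinarith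
    have h3 : a * J a ≤ a * (N a + 1 - m) := mul_le_mul_of_nonneg_left (by linarith) ha0.le
    nlinarith
  have hSb : (1 - e) * S b ≤ b * (N b + 1) := by
    have h1 : m / (1 + e) * b ≤ V b := hmb b hb0 le_rfl
    have h2 : V b ≤ S b := by rw [svb]; nlinarith
    have h3 : b * J b ≤ b * (N b + 1 - m / (1 + e)) := mul_le_mul_of_nonneg_left (by linarith) hb0.le
    have h4 : m * b = m / (1 + e) * b + e * (m / (1 + e) * b) := by field_simp
    nlinarith
  set sa : ℝ := S a * a ^ (d - 1) with hsa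
  set sb : ℝ := S b * b ^ (d - 1) with hsb
  set g : ℝ := (1 + e) / (1 - e) with hg
  have hsa1 : sa ≤ C * g := by
    have h1 : (1 - e) * sa ≤ C * (1 + e) := by
      calc (1 - e) * sa = (1 - e) * S a * a ^ (d - 1) := by rw [hsa]; ring
        _ ≤ a * (N a + 1) * a ^ (d - 1) := mul_le_mul_of_nonneg_right hSa hA1.le
        _ = (N a + 1) * (a ^ (d - 1) * a) := by ring
        _ ≤ C * (1 + e) := by rw [eA]; exact hNa
    rw [hg, mul_div_assoc', le_div_iff₀ h1e]
    linarith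
  have hsb1 : sb ≤ C * g := by
    have h1 : (1 - e) * sb ≤ C * (1 + e) := by
      calc (1 - e) * sb = (1 - e) * S b * b ^ (d - 1) := by rw [hsb]; ring
        _ ≤ b * (N b + 1) * b ^ (d - 1) := mul_le_mul_of_nonneg_right hSb hB1.le
        _ = (N b + 1) * (b ^ (d - 1) * b) := by ring
        _ ≤ C * (1 + e) := by rw [eB]; exact hNb
    rw [hg, mul_div_assoc', le_div_iff₀ h1e]
    linarith
  -- the derivative inequalities
  obtain ⟨hD1, hD2⟩ := hder J S V N A t ht0 ht1
  have hva : C * (t * ((1 - e) * t ^ (-d) - g)) ≤ (1 - t) * (V a * a ^ (d - 1)) := by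
    have h1 := hD1 a ha0
    have h2 := A.up (t * a) htap
    have h3 : C * (1 - e) * t ^ (-d) ≤ N (t * a) * a ^ d := by
      rw [Real.mul_rpow ht0.le ha0.le] at hNta
      have h4 : t ^ (-d) * t ^ d = 1 := by
        rw [← Real.rpow_add ht0]
        simp
      have h5 : 0 < t ^ (-d) := Real.rpow_pos_of_pos ht0 _
      calc C * (1 - e) * t ^ (-d) ≤ N (t * a) * (t ^ d * a ^ d) * t ^ (-d) :=
            mul_le_mul_of_nonneg_right hNta h5.le
        _ = N (t * a) * a ^ d * (t ^ (-d) * t ^ d) := by ring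
        _ = _ := by rw [h4, mul_one]
    have h4 : (N (t * a) * (t * a) - t * S a) * a ^ (d - 1) ≤ (1 - t) * V a * a ^ (d - 1) :=
      mul_le_mul_of_nonneg_right (by linarith) hA1.le
    have h5 : (N (t * a) * (t * a) - t * S a) * a ^ (d - 1) = t * (N (t * a) * a ^ d - sa) := by
      rw [hsa, ← eA]
      ring
    rw [h5] at h4
    have h6 : t * (C * (1 - e) * t ^ (-d) - C * g) ≤ t * (N (t * a) * a ^ d - sa) :=
      mul_le_mul_of_nonneg_left (by linarith) ht0.le
    calc C * (t * ((1 - e) * t ^ (-d) - g)) = t * (C * (1 - e) * t ^ (-d) - C * g) := by ring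
      _ ≤ _ := h6
      _ ≤ _ := h4
      _ = _ := by ring
  have hvb : (1 - t) * (V b * b ^ (d - 1)) ≤ C * (g - (1 - e) * t ^ d) := by
    have h1 := hD2 b hb0
    have h2 := A.up (b / t) hbtp
    have h3 : C * (1 - e) * t ^ d ≤ N (b / t) * b ^ d := by
      rw [Real.div_rpow hb0.le ht0.le, mul_div_assoc', le_div_iff₀ htd] at hNbt
      exact hNbt
    have h4 : N (b / t) * b ≤ t * S (b / t) := by
      have := mul_le_mul_of_nonneg_left h2 ht0.le
      calc N (b / t) * b = t * (N (b / t) * (b / t)) := by field_simp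
        _ ≤ _ := this
    have h5 : (1 - t) * V b * b ^ (d - 1) ≤ (S b - N (b / t) * b) * b ^ (d - 1) :=
      mul_le_mul_of_nonneg_right (by linarith) hB1.le
    have h6 : (S b - N (b / t) * b) * b ^ (d - 1) = sb - N (b / t) * b ^ d := by
      rw [hsb, ← eB]
      ring
    rw [h6] at h5
    linarith
  -- comparison of `V a` and `V b`
  have hcomp : b ^ d * (V a * a ^ (d - 1)) ≤ (1 + e) ^ 2 * (V b * b ^ (d - 1)) * a ^ d := by
    have h1 : m * b ≤ (1 + e) * V b := by
      have h2 := hmb b hb0 le_rfl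
      have h3 := mul_le_mul_of_nonneg_left h2 (show (0 : ℝ) ≤ 1 + e by linarith)
      calc m * b = (1 + e) * (m / (1 + e) * b) := by field_simp
        _ ≤ _ := h3
    have h2 : V a * b ≤ (1 + e) ^ 2 * V b * a := by
      calc V a * b ≤ (1 + e) * m * a * b := mul_le_mul_of_nonneg_right haV hb0.le
        _ = (1 + e) * a * (m * b) := by ring
        _ ≤ (1 + e) * a * ((1 + e) * V b) := mul_le_mul_of_nonneg_left h1 (by positivity)
        _ = _ := by ring
    have h3 := mul_le_mul_of_nonneg_right h2 (mul_pos hA1 hB1).le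
    rw [← eA, ← eB]
    linarith
  set P : ℝ := t * ((1 - e) * t ^ (-d) - g) with hP
  have hg1 : 1 < g := by
    rw [hg, lt_div_iff₀ h1e]
    linarith
  have hQ0 : 0 < (1 + e) ^ 2 * (g - (1 - e) * t ^ d) := by
    have h1 : t ^ d < 1 := Real.rpow_lt_one ht0.le ht1 hd0
    have h2 : (1 - e) * t ^ d < 1 := by nlinarith
    have h3 : 0 < g - (1 - e) * t ^ d := by linarith
    positivity
  have hP0 : 0 < P := by
    by_contra hcon
    rw [not_lt] at hcon
    nlinarith
  have hρ : b ^ d ≤ r * a ^ d := by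
    have h1 : b ^ d * (C * P) ≤ r * a ^ d * (C * P) := by
      calc b ^ d * (C * P) ≤ b ^ d * ((1 - t) * (V a * a ^ (d - 1))) :=
            mul_le_mul_of_nonneg_left hva hBd.le
        _ = (1 - t) * (b ^ d * (V a * a ^ (d - 1))) := by ring
        _ ≤ (1 - t) * ((1 + e) ^ 2 * (V b * b ^ (d - 1)) * a ^ d) :=
            mul_le_mul_of_nonneg_left hcomp (by linarith)
        _ = (1 + e) ^ 2 * ((1 - t) * (V b * b ^ (d - 1))) * a ^ d := by ring
        _ ≤ (1 + e) ^ 2 * (C * (g - (1 - e) * t ^ d)) * a ^ d := by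
            refine mul_le_mul_of_nonneg_right ?_ hAd.le
            exact mul_le_mul_of_nonneg_left hvb (by positivity)
        _ = ((1 + e) ^ 2 * (g - (1 - e) * t ^ d)) * (C * a ^ d) := by ring
        _ ≤ (r * P) * (C * a ^ d) := mul_le_mul_of_nonneg_right hPQ.le (by positivity)
        _ = _ := by ring
    exact le_of_mul_le_mul_right h1 (by positivity)
  -- the end
  have hSxb : S x ≤ S b := by
    have h1 := (A.co x b hx0 hxb).1
    have h2 : 0 ≤ (b - x) * J b := mul_nonneg (by linarith) hJb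
    linarith
  have hx1 : 0 < x ^ (d - 1) := Real.rpow_pos_of_pos hx0 _
  have hsb0 : 0 ≤ sb := by
    have h1 : 0 ≤ S b := by
      rw [svb]
      have := A.v0 b hb0
      positivity
    positivity
  have h1d : 0 < 1 - d := by linarith
  have e1 : S b * x ^ (d - 1) = sb * (b / x) ^ (1 - d) := by
    rw [hsb, Real.div_rpow hb0.le hx0.le, show d - 1 = -(1 - d) by ring, Real.rpow_neg hb0.le,
      Real.rpow_neg hx0.le]
    have h2 : 0 < b ^ (1 - d) := Real.rpow_pos_of_pos hb0 _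
    have h3 : 0 < x ^ (1 - d) := Real.rpow_pos_of_pos hx0 _
    field_simp
  have h2 : (b / x) ^ (1 - d) ≤ r ^ ((1 - d) / d) := by
    have h3 : (b / x) ^ d ≤ r := by
      have h4 : (b / x) ^ d ≤ (b / a) ^ d := by
        refine Real.rpow_le_rpow (by positivity) ?_ hd0.le
        exact div_le_div_of_nonneg_left hb0.le ha0 hax
      refine h4.trans ?_
      rw [Real.div_rpow hb0.le ha0.le, div_le_iff₀ hAd]
      exact hρ
    have h5 : ((b / x) ^ d) ^ ((1 - d) / d) ≤ r ^ ((1 - d) / d) :=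
      Real.rpow_le_rpow (by positivity) h3 (by positivity)
    rw [← Real.rpow_mul (by positivity), mul_div_cancel₀ _ hd0.ne'] at h5
    exact h5
  calc S x * x ^ (d - 1) ≤ S b * x ^ (d - 1) := mul_le_mul_of_nonneg_right hSxb hx1.le
    _ = sb * (b / x) ^ (1 - d) := e1
    _ ≤ sb * r ^ ((1 - d) / d) := mul_le_mul_of_nonneg_left h2 hsb0
    _ ≤ (C * r) * r ^ ((1 - d) / d) := by
        refine mul_le_mul_of_nonneg_right (hsb1.trans ?_) (by positivity)
        exact mul_le_mul_of_nonneg_left hge hC.le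
    _ = C * r ^ (1 / d) := by
        have h3 : r * r ^ ((1 - d) / d) = r ^ (1 / d) := by
          nth_rewrite 1 [← Real.rpow_one r]
          rw [← Real.rpow_add hr0]
          congr 1
          field_simp
          ring
        rw [mul_assoc, h3]

/-- **the main step** -/
theorem mn : S_MAIN := by
  intro hvlo hpts hder J S V N d C A hd0 hd1 hC hN
  rw [tendsto_order]
  constructor
  · intro c hc
    filter_upwards [hN.eventually (lt_mem_nhds hc), ev_pos'] with x h1 hx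
    have h2 := A.up x hx
    have h3 : 0 < x ^ (d - 1) := Real.rpow_pos_of_pos hx _
    have h4 : x * x ^ (d - 1) = x ^ d := by
      nth_rewrite 1 [← Real.rpow_one x]
      rw [← Real.rpow_add hx]
      congr 1
      ring
    calc c < N x * x ^ d := h1
      _ = N x * x * x ^ (d - 1) := by rw [mul_assoc, h4]
      _ ≤ S x * x ^ (d - 1) := mul_le_mul_of_nonneg_right h2 h3.le
  · intro c hc
    have hlim : Tendsto (fun r : ℝ => C * r ^ (1 / d)) (𝓝[>] 1) (𝓝 (C * 1 ^ (1 / d))) :=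
      ((Real.continuousAt_rpow_const 1 (1 / d) (Or.inl one_ne_zero)).tendsto.mono_left
        nhdsWithin_le_nhds).const_mul C
    rw [Real.one_rpow, mul_one] at hlim
    obtain ⟨r, h1, h2⟩ := ((hlim.eventually (gt_mem_nhds hc)).and
      (self_mem_nhdsWithin : Ioi (1 : ℝ) ∈ 𝓝[>] (1 : ℝ))).exists
    filter_upwards [upper_r hvlo hpts hder A hd0 hd1 hC hN h2] with x hx using lt_of_le_of_lt hx h1

end Pool.Agent.Q24.FS
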