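import Pool.Agent.Q62.FS.Stm

set_option autoImplicit false

/-!
# Job FS13 of project FS: the lower bound for `V`
-/

namespace Pool.Agent.Q24.FS

open Filter Topology Set
open Pool.Agent.Q62.FS

lemma ev_pos' : ∀ᶠ x : ℝ in 𝓝[>] 0, 0 < x := eventually_mem_nhdsWithin

lemma rpow_lim {d : ℝ} (hd : 0 < d) : Tendsto (fun x : ℝ => x ^ d) (𝓝[>] 0) (𝓝 0) := by
  have h : Tendsto (fun x : ℝ => x ^ d) (𝓝 0) (𝓝 (0 ^ d)) :=
    (Real.continuousAt_rpow_const 0 d (Or.inr hd.le)).tendsto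
  rw [Real.zero_rpow hd.ne'] at h
  exact h.mono_left nhdsWithin_le_nhds

lemma half_lim : Tendsto (fun x : ℝ => x / 2) (𝓝[>] 0) (𝓝[>] 0) := by
  refine tendsto_nhdsWithin_iff.2 ⟨?_, ?_⟩
  · have h : Tendsto (fun x : ℝ => x / 2) (𝓝 0) (𝓝 (0 / 2)) := tendsto_id.div_const 2
    rw [zero_div] at h
    exact h.mono_left nhdsWithin_le_nhds
  · filter_upwards [ev_pos'] with x hx
    exact half_pos hx

lemma J_le {J S V N : ℝ → ℝ} (A : Abs J S V N) {x : ℝ} (hx : 0 < x) : J x - 1 ≤ N x := by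
  have h := A.lo x 0 hx le_rfl fun y hy _ => by
    rw [zero_mul]
    exact A.v0 y hy
  linarith

/-- **the lower bound for `V`** -/
theorem vlo : S_VLO := by
  intro J S V N d C A hd0 hd1 hC hN
  set g : ℝ := 2 ^ (d - 1) - 1 / 2 with hg
  have h2d : (1 : ℝ) / 2 < 2 ^ (d - 1) := by
    have h1 : (2 : ℝ) ^ (-1 : ℝ) < 2 ^ (d - 1) :=
      Real.rpow_lt_rpow_of_exponent_lt (by norm_num) (by linarith)
    rwa [Real.rpow_neg_one, ← one_div] at h1
  have h2d1 : (2 : ℝ) ^ (d - 1) ≤ 1 := by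
    have h1 : (2 : ℝ) ^ (d - 1) ≤ 2 ^ (0 : ℝ) :=
      Real.rpow_le_rpow_of_exponent_le (by norm_num) (by linarith)
    rwa [Real.rpow_zero] at h1
  have hg0 : 0 < g := by rw [hg]; linarith
  set η : ℝ := C * g / 4 with hη
  have hη0 : 0 < η := by positivity
  have e1 : ∀ᶠ x : ℝ in 𝓝[>] 0, N x * x ^ d ≤ C + η := by
    filter_upwards [hN.eventually (ge_mem_nhds (show C < C + η by linarith))] with x hx using hx
  have e2 : ∀ᶠ x : ℝ in 𝓝[>] 0, C - η ≤ N (x / 2) * (x / 2) ^ d :=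
    half_lim.eventually (hN.eventually (le_mem_nhds (show C - η < C by linarith)))
  have e3 : ∀ᶠ x : ℝ in 𝓝[>] 0, x ^ d ≤ η :=
    (rpow_lim hd0).eventually (ge_mem_nhds hη0)
  have hall : ∀ᶠ x : ℝ in 𝓝[>] 0, C * g / 2 * x ^ (1 - d) ≤ V x := by
    filter_upwards [e1, e2, e3, ev_pos'] with x h1 h2 h3 hx
    have hQ : 0 < x ^ d := Real.rpow_pos_of_pos hx d
    have hP : 0 < x ^ (1 - d) := Real.rpow_pos_of_pos hx _
    have hPQ : x ^ (1 - d) * x ^ d = x := by
      rw [← Real.rpow_add hx]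
      simp
    have h4 := A.co (x / 2) x (by positivity) (by linarith)
    have h5 := A.sv x hx
    have h6 := A.up (x / 2) (by positivity)
    have h7 := J_le A hx
    -- the term with `J`
    have h8 : x * J x ≤ x ^ (1 - d) * (C + η + x ^ d) := by
      have h9 : J x * x ^ d ≤ C + η + x ^ d := by
        have := mul_le_mul_of_nonneg_right (show J x ≤ N x + 1 by linarith) hQ.le
        linarith
      calc x * J x = x ^ (1 - d) * (J x * x ^ d) := by
            rw [← mul_assoc, mul_comm (x ^ (1 - d)) (J x), mul_assoc, hPQ, mul_comm]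
        _ ≤ _ := mul_le_mul_of_nonneg_left h9 hP.le
    -- the term with `N`
    have h10 : x ^ (1 - d) * ((C - η) * 2 ^ (d - 1)) ≤ N (x / 2) * (x / 2) := by
      have e4 : (x / 2) = (x / 2) ^ d * (x ^ (1 - d) * 2 ^ (d - 1)) := by
        have e5 : x ^ (1 - d) * 2 ^ (d - 1) = (x / 2) ^ (1 - d) := by
          rw [Real.div_rpow hx.le (by norm_num), show d - 1 = -(1 - d) by ring,
            Real.rpow_neg (by norm_num)]
          rfl
        rw [e5, ← Real.rpow_add (by positivity)]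
        simp
      calc x ^ (1 - d) * ((C - η) * 2 ^ (d - 1)) = (C - η) * (x ^ (1 - d) * 2 ^ (d - 1)) := by ring
        _ ≤ (N (x / 2) * (x / 2) ^ d) * (x ^ (1 - d) * 2 ^ (d - 1)) :=
          mul_le_mul_of_nonneg_right h2 (by positivity)
        _ = N (x / 2) * ((x / 2) ^ d * (x ^ (1 - d) * 2 ^ (d - 1))) := by ring
        _ = N (x / 2) * (x / 2) := by rw [← e4]
    have h11 : C * g / 2 ≤ (C - η) * 2 ^ (d - 1) - (C + η + x ^ d) / 2 := by
      have h12 : (2 : ℝ) ^ (d - 1) = g + 1 / 2 := by rw [hg]; ring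
      rw [h12] at h2d1 ⊢
      have h13 : C * g / 2 = 2 * η := by rw [hη]; ring
      have h14 : C * g = 4 * η := by rw [hη]; ring
      nlinarith
    have h12 := mul_le_mul_of_nonneg_left h11 hP.le
    nlinarith [h4.1]
  obtain ⟨x0, hx0, hx⟩ := mem_nhdsGT_iff_exists_Ioc_subset.1 hall
  exact ⟨C * g / 2, x0, by positivity, hx0, fun x h1 h2 => hx ⟨h1, h2⟩⟩

end Pool.Agent.Q24.FS
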